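import Mathlib
import Pool.Agent.Helper80.KrMain

/-!
# A duality group of dimension three whose dualizing module is not free abelian
-/

set_option autoImplicit false

namespace Pool.Agent.Results.MP_9fa67c_al.DivisibleDualizing

/-- The integral group ring of `G`. -/
def ZG (G : Type) [Group G] : Type := MonoidAlgebra ℤ G

noncomputable instance instRingZG (G : Type) [Group G] : Ring (ZG G) :=
  inferInstanceAs (Ring (MonoidAlgebra ℤ G))

/-- A group element, as an element of the group ring. -/
noncomputable def el {G : Type} [Group G] (g : G) : ZG G := MonoidAlgebra.of ℤ G g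

/-- A chain complex of modules over the integral group ring, with an augmentation. -/
structure AugComplex (G : Type) [Group G] where
  /-- The modules. -/
  P : ℕ → ModuleCat.{0} (ZG G)
  /-- The differentials. -/
  d : ∀ i : ℕ, P (i + 1) →ₗ[ZG G] P i
  /-- The augmentation. -/
  aug : P 0 →+ ℤ

namespace AugComplex

variable {G : Type} [Group G]

/-- The augmentation is invariant under the group and surjective, and the augmented complex is
exact. -/
def IsResolution (C : AugComplex G) : Prop :=
  (∀ (g : G) (x : C.P 0), C.aug (el g • x) = C.aug x) ∧ Function.Surjective C.aug ∧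
    Function.Exact (C.d 0) C.aug ∧ ∀ i : ℕ, Function.Exact (C.d (i + 1)) (C.d i)

/-- All modules are finitely generated and free, and they vanish above degree `n`. -/
def IsFiniteFree (C : AugComplex G) (n : ℕ) : Prop :=
  ∀ i : ℕ, Module.Free (ZG G) (C.P i) ∧ Module.Finite (ZG G) (C.P i) ∧
    (n < i → ∀ x : C.P i, x = 0)

/-- The `i`-cochains with coefficients in the group ring. -/
def Coch (C : AugComplex G) (i : ℕ) : Type := C.P i →ₗ[ZG G] ZG G

noncomputable instance instCoch (C : AugComplex G) (i : ℕ) : AddCommGroup (C.Coch i) :=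
  LinearMap.addCommGroup

/-- The coboundary map from `i`-cochains to `(i+1)`-cochains, `f ↦ f ∘ d i`. -/
noncomputable def coboundary (C : AugComplex G) (i : ℕ) : C.Coch i →+ C.Coch (i + 1) :=
  AddMonoidHom.mk' (fun f => LinearMap.comp f (C.d i)) (fun f g => LinearMap.add_comp (C.d i) g f)

/-- The group of `i`-cocycles. -/
noncomputable def cocycles (C : AugComplex G) (i : ℕ) : AddSubgroup (C.Coch i) :=
  (C.coboundary i).ker

/-- The group of `i`-coboundaries. -/
noncomputable def coboundaries (C : AugComplex G) : (i : ℕ) → AddSubgroup (C.Coch i)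
  | 0 => ⊥
  | i + 1 => (C.coboundary i).range

/-- The cohomology group in degree `i` with coefficients in the group ring: cocycles modulo
coboundaries. -/
abbrev H (C : AugComplex G) (i : ℕ) : Type :=
  ↥(C.cocycles i) ⧸ (C.coboundaries i).addSubgroupOf (C.cocycles i)

end AugComplex

/-- The complex `C` witnesses that `G` is a duality group of dimension `n` (and of type FL): it is
a finite resolution of the trivial module by finitely generated free modules, and the cohomology
with coefficients in the group ring vanishes in all degrees different from `n` and is torsion-free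
in degree `n`. -/
def IsDuality {G : Type} [Group G] (C : AugComplex G) (n : ℕ) : Prop :=
  C.IsResolution ∧ C.IsFiniteFree n ∧ (∀ i : ℕ, i ≠ n → ∀ x : C.H i, x = 0) ∧
    ∀ (k : ℕ) (x : C.H n), 0 < k → k • x = 0 → x = 0

open Helper80.Kr in
/-- The resolution. -/
noncomputable def res : AugComplex GG where
  P := fun i => ModuleCat.of (ZG GG) (Ix i → ZG GG)
  d := dd
  aug := (aug : LL →+ ℤ).comp (Pi.evalAddMonoidHom (fun _ : Ix 0 => LL) ())

open Helper80.Kr in
theorem res_resolution : res.IsResolution := by
  refine ⟨?_, ?_, r5, r6⟩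
  · intro g (x : Ix 0 → LL)
    show aug (MonoidAlgebra.of ℤ GG g * x ()) = aug (x ())
    rw [map_mul]
    have h1 : aug (MonoidAlgebra.of ℤ GG g) = 1 := aug_single g 1
    rw [h1, one_mul]
  · intro n
    exact ⟨fun _ => MonoidAlgebra.single 1 n, aug_single 1 n⟩

open Helper80.Kr in
theorem res_free : res.IsFiniteFree 3 := by
  intro i
  refine ⟨inferInstanceAs (Module.Free LL (Ix i → LL)),
    inferInstanceAs (Module.Finite LL (Ix i → LL)), ?_⟩
  intro hi x
  obtain ⟨n, rfl⟩ := Nat.exists_eq_add_of_lt hi
  have e : 3 + n + 1 = n + 4 := by ring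
  revert x
  rw [e]
  intro x
  exact funext fun e => Empty.elim e

open Helper80.Kr in
theorem res_duality : IsDuality res 3 := by
  refine ⟨res_resolution, res_free, ?_, ?_⟩
  · intro i hi x
    obtain ⟨⟨f, hf⟩, rfl⟩ := QuotientAddGroup.mk_surjective x
    refine (QuotientAddGroup.eq_zero_iff _).2 ?_
    rw [AddSubgroup.mem_addSubgroupOf]
    cases i with
    | zero => exact r7 f hf
    | succ i => exact r8 i (fun h => hi (by rw [h])) f hf
  · intro k x hk h
    obtain ⟨⟨f, hf⟩, rfl⟩ := QuotientAddGroup.mk_surjective x
    have h2 := (QuotientAddGroup.eq_zero_iff _).1 ((QuotientAddGroup.mk_nsmul _ _ _).trans h)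
    rw [AddSubgroup.mem_addSubgroupOf] at h2
    refine (QuotientAddGroup.eq_zero_iff _).2 ?_
    rw [AddSubgroup.mem_addSubgroupOf]
    exact r9 f k hk h2

open Helper80.Kr in
theorem res_div : ∃ x : res.H 3, x ≠ 0 ∧ ∀ n : ℕ, ∃ y : res.H 3, 2 ^ n • y = x := by
  have hall : ∀ φ : (Ix 3 → LL) →ₗ[LL] LL, φ ∈ res.cocycles 3 := by
    intro φ
    show φ ∘ₗ dd 3 = 0
    apply LinearMap.ext
    intro x
    have hx : x = 0 := funext fun e => Empty.elim e
    rw [hx, map_zero, map_zero]
  refine ⟨QuotientAddGroup.mk ⟨homOf (TT 0 0 1), hall _⟩, ?_, ?_⟩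
  · intro h
    have h := (QuotientAddGroup.eq_zero_iff _).1 h
    rw [AddSubgroup.mem_addSubgroupOf] at h
    have h1 := FH_zero_of_mem (AddSubgroup.subset_closure h)
    rw [FH] at h1
    simp only [homOf_single] at h1
    have h2 := FF_U
    rw [show FF (TT 0 0 1) = 0 from h1] at h2
    exact zero_ne_one h2
  · intro n
    obtain ⟨ν', f, hf⟩ := div_U (K := ℤ) n 1
    refine ⟨QuotientAddGroup.mk ⟨homOf (TT 0 0 ν'), hall _⟩, ?_⟩
    refine (QuotientAddGroup.mk_nsmul _ _ _).symm.trans (QuotientAddGroup.eq.2 ?_)
    rw [AddSubgroup.mem_addSubgroupOf]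
    refine ⟨homOf f, ?_⟩
    refine (homOf_comp _ _).trans ?_
    have h1 : (fun r => ∑ i, row 2 r i * f i) = cD3 f := co3 f
    rw [h1]
    have h2 : cD3 f = TT 0 0 1 - 2 ^ n • TT 0 0 ν' := hf
    rw [h2]
    exact homOf_comb (TT 0 0 1) (TT 0 0 ν') (2 ^ n)

/-- There is a group `G` with a resolution of the trivial module of length three by finitely
generated free modules which is a duality group of dimension three, and whose dualizing module
contains a nonzero element divisible by every power of two; in particular the dualizing module is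
not a free abelian group. -/
theorem result : ∃ (G : Type) (_ : Group G) (C : AugComplex G), IsDuality C 3 ∧
    (∃ x : C.H 3, x ≠ 0 ∧ ∀ n : ℕ, ∃ y : C.H 3, 2 ^ n • y = x) ∧
    ¬ Module.Free ℤ (C.H 3) := by
  refine ⟨Helper80.Kr.GG, inferInstance, res, res_duality, res_div, ?_⟩
  obtain ⟨x, hx, hd⟩ := res_div
  exact Helper80.Kr.not_free x hx hd

end Pool.Agent.Results.MP_9fa67c_al.DivisibleDualizing
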